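import Mathlib

set_option autoImplicit false

/-!
# Cycle reversals cannot always make all strong components finite

The digraph `D` has vertex set `ℕ` and its underlying graph joins `x` and `y` when `|x - y|` is
`1` or `2`.  Every reversal sequence keeps the (finite) out-degrees, and every orientation of this
graph with the out-degrees of `D` is strongly connected: each cut `{0, …, n} | {n + 1, …}` is
crossed backwards by exactly one arc.
-/

namespace Pool.Agent.Results.MP_cc637b_co.StrongForever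

universe u v

/-- Digraphs of the problem: arc relations without loops in which at most one of `xy`, `yx` is an
arc. -/
def IsOriented {V : Type u} (D : V → V → Prop) : Prop := ∀ x y, D x y → ¬ D y x

/-- `Z` is the arc relation of a (finite) directed cycle `c 0, c 1, …, c n, c 0` of `D`. -/
def IsDirectedCycle {V : Type u} (D Z : V → V → Prop) : Prop :=
  ∃ (n : ℕ) (c : ZMod (n + 1) → V), Function.Injective c ∧
    (∀ i, D (c i) (c (i + 1))) ∧ ∀ x y, Z x y ↔ ∃ i, c i = x ∧ c (i + 1) = y

/-- The digraph obtained from `D` by reversing the cycle with arc relation `Z`. -/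
def reverse {V : Type u} (D Z : V → V → Prop) : V → V → Prop :=
  fun x y => (D x y ∧ ¬ Z x y) ∨ Z y x

/-- `(C ξ)_{ξ < θ}` is a reversal sequence of `D`, and `E ξ` is the result of its initial segment
of length `ξ`, for all `ξ ≤ θ`.  In particular `E θ` is the result of the whole sequence. -/
structure IsReversalSequence {V : Type u} (D : V → V → Prop) (θ : Ordinal.{v})
    (C E : Ordinal.{v} → V → V → Prop) : Prop where
  zero : E 0 = D
  cycle : ∀ ξ, ξ < θ → IsDirectedCycle (E ξ) (C ξ)
  succ : ∀ ξ, ξ < θ → E (Order.succ ξ) = reverse (E ξ) (C ξ)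
  locallyFinite : ∀ ξ, ξ ≤ θ → Order.IsSuccLimit ξ → ∀ x y, D x y →
    {η | η < ξ ∧ (C η x y ∨ C η y x)}.Finite
  limit : ∀ ξ, ξ ≤ θ → Order.IsSuccLimit ξ → ∀ x y,
    (E ξ x y ↔ ∃ η, η < ξ ∧ ∀ ζ, η ≤ ζ → ζ < ξ → E ζ x y)

/-- The subdigraph of `D` induced on `S` is strong. -/
def StrongOn {V : Type u} (D : V → V → Prop) (S : Set V) : Prop :=
  ∀ x ∈ S, ∀ y ∈ S, Relation.ReflTransGen (fun a b => a ∈ S ∧ b ∈ S ∧ D a b) x y

/-- `S` is (the vertex set of) a strong component of `D`: a maximal strong induced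
subdigraph. -/
def IsStrongComponent {V : Type u} (D : V → V → Prop) (S : Set V) : Prop :=
  S.Nonempty ∧ StrongOn D S ∧ ∀ T : Set V, S ⊆ T → StrongOn D T → T = S

section general

variable {V : Type u}

theorem reverse_oriented {D Z : V → V → Prop} (hD : IsOriented D) (hZ : IsDirectedCycle D Z) :
    IsOriented (reverse D Z) := by
  obtain ⟨n, c, hc, harc, hZc⟩ := hZ
  have hsub : ∀ x y, Z x y → D x y := by
    intro x y h
    obtain ⟨i, rfl, rfl⟩ := (hZc x y).1 h
    exact harc i
  rintro x y (⟨h1, h2⟩ | h1) (⟨h3, h4⟩ | h3)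
  · exact hD x y h1 h3
  · exact h2 h3
  · exact h4 h1
  · exact hD x y (hsub _ _ h3) (hsub _ _ h1)

theorem reverse_adj {D Z : V → V → Prop} (hZ : IsDirectedCycle D Z) (x y : V) :
    (reverse D Z x y ∨ reverse D Z y x) ↔ (D x y ∨ D y x) := by
  obtain ⟨n, c, hc, harc, hZc⟩ := hZ
  have hsub : ∀ x y, Z x y → D x y := by
    intro x y h
    obtain ⟨i, rfl, rfl⟩ := (hZc x y).1 h
    exact harc i
  constructor
  · rintro ((⟨h, -⟩ | h) | (⟨h, -⟩ | h))
    · exact Or.inl h
    · exact Or.inr (hsub _ _ h)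
    · exact Or.inr h
    · exact Or.inl (hsub _ _ h)
  · rintro (h | h)
    · by_cases hz : Z x y
      · exact Or.inr (Or.inr hz)
      · exact Or.inl (Or.inl ⟨h, hz⟩)
    · by_cases hz : Z y x
      · exact Or.inl (Or.inr hz)
      · exact Or.inr (Or.inl ⟨h, hz⟩)

theorem reverse_outdeg {D Z : V → V → Prop} (hD : IsOriented D) (hZ : IsDirectedCycle D Z)
    (x : V) : {y | reverse D Z x y}.ncard = {y | D x y}.ncard := by
  obtain ⟨n, c, hc, harc, hZc⟩ := hZ
  by_cases hx : ∃ i, c i = x
  · obtain ⟨i, rfl⟩ := hx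
    have h1 : ∀ y, Z (c i) y ↔ y = c (i + 1) := by
      intro y
      rw [hZc]
      constructor
      · rintro ⟨j, hj, rfl⟩
        rw [hc hj]
      · rintro rfl
        exact ⟨i, rfl, rfl⟩
    have h2 : ∀ y, Z y (c i) ↔ y = c (i - 1) := by
      intro y
      rw [hZc]
      constructor
      · rintro ⟨j, rfl, hj⟩
        have := hc hj
        rw [← this]
        ring_nf
      · rintro rfl
        exact ⟨i - 1, rfl, by ring_nf⟩
    have hset : {y | reverse D Z (c i) y} = insert (c (i - 1)) ({y | D (c i) y} \ {c (i + 1)}) := by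
      ext y
      simp only [reverse, Set.mem_ofPred_eq, Set.mem_insert_iff, Set.mem_sdiff,
        Set.mem_singleton_iff, h1, h2]
      tauto
    rw [hset]
    apply Set.ncard_exchange
    · intro h
      have h3 : D (c (i - 1)) (c i) := by
        have := harc (i - 1)
        rwa [sub_add_cancel] at this
      exact hD _ _ h3 h
    · exact harc i
  · have h1 : ∀ y, ¬ Z x y := by
      intro y h
      obtain ⟨i, hi, -⟩ := (hZc _ _).1 h
      exact hx ⟨i, hi⟩
    have h2 : ∀ y, ¬ Z y x := by
      intro y h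
      obtain ⟨i, -, hi⟩ := (hZc _ _).1 h
      exact hx ⟨_, hi⟩
    have hset : {y | reverse D Z x y} = {y | D x y} := by
      ext y
      simp only [reverse, Set.mem_ofPred_eq]
      constructor
      · rintro (⟨h, -⟩ | h)
        · exact h
        · exact absurd h (h2 y)
      · intro h
        exact Or.inl ⟨h, h1 y⟩
    rw [hset]

/-- In a reversal sequence the orientation of a pair is constant from some point on below a
limit. -/
theorem eventually_const {D : V → V → Prop} {θ : Ordinal.{v}} {C E : Ordinal.{v} → V → V → Prop}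
    (h : IsReversalSequence D θ C E) {ξ : Ordinal.{v}} (hξ : ξ ≤ θ) (hlim : Order.IsSuccLimit ξ)
    (x y : V) (hxy : D x y ∨ D y x) :
    ∃ η < ξ, ∀ ζ, η ≤ ζ → ζ ≤ ξ → (E ζ x y ↔ E η x y) := by
  have hfin : {η | η < ξ ∧ (C η x y ∨ C η y x)}.Finite := by
    rcases hxy with hxy | hxy
    · exact h.locallyFinite ξ hξ hlim x y hxy
    · have := h.locallyFinite ξ hξ hlim y x hxy
      refine this.subset ?_
      rintro η ⟨h1, h2⟩
      exact ⟨h1, h2.symm⟩
  have h0 : 0 < ξ := by
    rw [pos_iff_ne_zero]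
    rintro rfl
    exact Ordinal.not_isSuccLimit_zero hlim
  obtain ⟨η, hη, hbd⟩ : ∃ η < ξ, ∀ ζ, η ≤ ζ → ζ < ξ → ¬ (C ζ x y ∨ C ζ y x) := by
    obtain ⟨F, hF⟩ : ∃ F : Finset Ordinal.{v}, ∀ ζ, ζ ∈ F ↔ ζ < ξ ∧ (C ζ x y ∨ C ζ y x) :=
      ⟨hfin.toFinset, fun ζ => by rw [Set.Finite.mem_toFinset]; rfl⟩
    refine ⟨F.sup Order.succ, ?_, ?_⟩
    · rw [Finset.sup_lt_iff (by simpa using h0)]
      intro ζ hζ
      exact hlim.succ_lt ((hF ζ).1 hζ).1
    · intro ζ h1 h2 h3
      have h4 : ζ ∈ F := (hF ζ).2 ⟨h2, h3⟩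
      have h5 : Order.succ ζ ≤ F.sup Order.succ := Finset.le_sup (f := Order.succ) h4
      exact absurd ((Order.succ_le_iff.1 h5).trans_le h1) (lt_irrefl _)
  refine ⟨η, hη, ?_⟩
  intro ζ
  induction ζ using WellFoundedLT.induction with
  | _ ζ ih =>
    intro h1 h2
    rcases h1.eq_or_lt with rfl | h1
    · rfl
    rcases Ordinal.zero_or_succ_or_isSuccLimit ζ with rfl | ⟨δ, rfl⟩ | hl
    · exact absurd h1 not_lt_zero
    · have hδ : δ < ξ := Order.succ_le_iff.1 h2
      have hηδ : η ≤ δ := Order.lt_succ_iff.1 h1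
      have h3 := ih δ (Order.lt_succ δ) hηδ hδ.le
      rw [← h3, h.succ δ (hδ.trans_le hξ)]
      have h4 := hbd δ hηδ hδ
      simp only [not_or] at h4
      simp only [reverse]
      constructor
      · rintro (⟨h5, -⟩ | h5)
        · exact h5
        · exact absurd h5 h4.2
      · intro h5
        exact Or.inl ⟨h5, h4.1⟩
    · rw [h.limit ζ (h2.trans hξ) hl x y]
      constructor
      · rintro ⟨δ, hδ, hall⟩
        have h3 := hall (max δ η) (le_max_left _ _) (max_lt hδ h1)
        exact (ih (max δ η) (max_lt hδ h1) (le_max_right _ _)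
          ((max_lt hδ h1).le.trans h2)).1 h3
      · intro h3
        exact ⟨η, h1, fun δ h4 h5 => (ih δ h5 h4 (h5.le.trans h2)).2 h3⟩

/-- Reversal sequences keep orientedness, the underlying graph and all finite out-degrees. -/
theorem invariants {D : V → V → Prop} {θ : Ordinal.{v}} {C E : Ordinal.{v} → V → V → Prop}
    (hD : IsOriented D) (hfin : ∀ x, {y | D x y ∨ D y x}.Finite)
    (h : IsReversalSequence D θ C E) (ξ : Ordinal.{v}) : ξ ≤ θ →
    IsOriented (E ξ) ∧ (∀ x y, (E ξ x y ∨ E ξ y x) ↔ (D x y ∨ D y x)) ∧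
      ∀ x, {y | E ξ x y}.ncard = {y | D x y}.ncard := by
  induction ξ using WellFoundedLT.induction with
  | _ ξ ih =>
    intro hξ
    rcases Ordinal.zero_or_succ_or_isSuccLimit ξ with rfl | ⟨δ, rfl⟩ | hl
    · rw [h.zero]
      exact ⟨hD, fun x y => Iff.rfl, fun x => rfl⟩
    · have hδ : δ < θ := Order.succ_le_iff.1 hξ
      obtain ⟨h1, h2, h3⟩ := ih δ (Order.lt_succ δ) hδ.le
      rw [h.succ δ hδ]
      refine ⟨reverse_oriented h1 (h.cycle δ hδ), fun x y => ?_, fun x => ?_⟩
      · rw [reverse_adj (h.cycle δ hδ), h2]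
      · rw [reverse_outdeg h1 (h.cycle δ hδ), h3]
    · have hnon : ∀ x y, ¬ (D x y ∨ D y x) → ¬ E ξ x y := by
        intro x y hxy hE
        obtain ⟨η, hη, hall⟩ := (h.limit ξ hξ hl x y).1 hE
        exact hxy (((ih η hη (hη.le.trans hξ)).2.1 x y).1 (Or.inl (hall η le_rfl hη)))
      have key : ∀ x, ∃ η < ξ, ∀ y, (E ξ x y ↔ E η x y) ∧ (E ξ y x ↔ E η y x) := by
        intro x
        have hc : ∀ y, ∃ η < ξ, ∀ ζ, η ≤ ζ → ζ ≤ ξ →
            ((E ζ x y ↔ E ξ x y) ∧ (E ζ y x ↔ E ξ y x)) ∨ ¬ (D x y ∨ D y x) := by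
          intro y
          by_cases hxy : D x y ∨ D y x
          · obtain ⟨η₁, h1, h2⟩ := eventually_const h hξ hl x y hxy
            obtain ⟨η₂, h3, h4⟩ := eventually_const h hξ hl y x hxy.symm
            refine ⟨max η₁ η₂, max_lt h1 h3, fun ζ h5 h6 => Or.inl ⟨?_, ?_⟩⟩
            · rw [h2 ζ ((le_max_left _ _).trans h5) h6, h2 ξ h1.le le_rfl]
            · rw [h4 ζ ((le_max_right _ _).trans h5) h6, h4 ξ h3.le le_rfl]
          · have h0 : 0 < ξ := by
              rw [pos_iff_ne_zero]
              rintro rfl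
              exact Ordinal.not_isSuccLimit_zero hl
            exact ⟨0, h0, fun ζ _ _ => Or.inr hxy⟩
        choose g hg1 hg2 using hc
        have h0 : 0 < ξ := by
          rw [pos_iff_ne_zero]
          rintro rfl
          exact Ordinal.not_isSuccLimit_zero hl
        refine ⟨(hfin x).toFinset.sup g, ?_, ?_⟩
        · rw [Finset.sup_lt_iff (by simpa using h0)]
          intro y _
          exact hg1 y
        · intro y
          by_cases hxy : D x y ∨ D y x
          · have hmem : y ∈ (hfin x).toFinset := by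
              rw [Set.Finite.mem_toFinset]; exact hxy
            have h1 : g y ≤ (hfin x).toFinset.sup g := Finset.le_sup (f := g) hmem
            have h2 : (hfin x).toFinset.sup g ≤ ξ := by
              apply Finset.sup_le
              intro z _
              exact (hg1 z).le
            rcases hg2 y _ h1 h2 with h3 | h3
            · exact ⟨h3.1.symm, h3.2.symm⟩
            · exact absurd hxy h3
          · have hlt : (hfin x).toFinset.sup g < ξ := by
              rw [Finset.sup_lt_iff (by simpa using h0)]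
              intro y _
              exact hg1 y
            have h1 := (ih _ hlt (hlt.le.trans hξ)).2.1
            refine ⟨⟨fun h2 => absurd h2 (hnon x y hxy), fun h2 => ?_⟩,
              ⟨fun h2 => absurd h2 (hnon y x (fun h3 => hxy h3.symm)), fun h2 => ?_⟩⟩
            · exact absurd ((h1 x y).1 (Or.inl h2)) hxy
            · exact absurd ((h1 x y).1 (Or.inr h2)) hxy
      refine ⟨fun x y h1 h2 => ?_, fun x y => ?_, fun x => ?_⟩
      · obtain ⟨η, hη, hall⟩ := key x
        exact (ih η hη (hη.le.trans hξ)).1 x y ((hall y).1.1 h1) ((hall y).2.1 h2)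
      · obtain ⟨η, hη, hall⟩ := key x
        rw [(hall y).1, (hall y).2]
        exact (ih η hη (hη.le.trans hξ)).2.1 x y
      · obtain ⟨η, hη, hall⟩ := key x
        have : {y | E ξ x y} = {y | E η x y} := by
          ext y
          exact (hall y).1
        rw [this]
        exact (ih η hη (hη.le.trans hξ)).2.2 x

end general

section example_

/-- The digraph on `ℕ`: all arcs `x → x + 1`, the arcs `x → x + 2` for odd `x` and the arcs
`x + 2 → x` for even `x`. -/
def D₀ : ℕ → ℕ → Prop := fun x y => y = x + 1 ∨ (x % 2 = 1 ∧ y = x + 2) ∨ (y % 2 = 0 ∧ x = y + 2)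

theorem D₀_oriented : IsOriented D₀ := by
  intro x y h1 h2
  unfold D₀ at h1 h2
  omega

theorem D₀_adj (x y : ℕ) : (D₀ x y ∨ D₀ y x) ↔ (y = x + 1 ∨ y = x + 2 ∨ x = y + 1 ∨ x = y + 2) := by
  unfold D₀
  omega

theorem D₀_finite (x : ℕ) : {y | D₀ x y ∨ D₀ y x}.Finite := by
  refine (Set.finite_Iic (x + 2)).subset ?_
  intro y hy
  have := (D₀_adj x y).1 hy
  simp only [Set.mem_Iic]
  omega

open Classical in
/-- indicator of the backward arc `n + 1 → n` -/
noncomputable def b1 (E : ℕ → ℕ → Prop) (n : ℕ) : ℕ := if E (n + 1) n then 1 else 0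

open Classical in
/-- indicator of the backward arc `n + 2 → n` -/
noncomputable def b2 (E : ℕ → ℕ → Prop) (n : ℕ) : ℕ := if E (n + 2) n then 1 else 0

variable {E : ℕ → ℕ → Prop}

theorem b1_le (n : ℕ) : b1 E n ≤ 1 := by unfold b1; split_ifs <;> simp

theorem b2_le (n : ℕ) : b2 E n ≤ 1 := by unfold b2; split_ifs <;> simp

open Classical in
theorem fwd1 (hE : IsOriented E)
    (hadj : ∀ x y, (E x y ∨ E y x) ↔ (y = x + 1 ∨ y = x + 2 ∨ x = y + 1 ∨ x = y + 2)) (n : ℕ) :
    (if E n (n + 1) then 1 else 0) = 1 - b1 E n := by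
  unfold b1
  have h1 := (hadj n (n + 1)).2 (Or.inl rfl)
  by_cases h2 : E (n + 1) n
  · rw [if_pos h2, if_neg (hE _ _ h2)]
  · rw [if_neg h2, if_pos (by tauto)]

open Classical in
theorem fwd2 (hE : IsOriented E)
    (hadj : ∀ x y, (E x y ∨ E y x) ↔ (y = x + 1 ∨ y = x + 2 ∨ x = y + 1 ∨ x = y + 2)) (n : ℕ) :
    (if E n (n + 2) then 1 else 0) = 1 - b2 E n := by
  unfold b2
  have h1 := (hadj n (n + 2)).2 (Or.inr (Or.inl rfl))
  by_cases h2 : E (n + 2) n
  · rw [if_pos h2, if_neg (hE _ _ h2)]
  · rw [if_neg h2, if_pos (by tauto)]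

theorem outdeg_ge_two (hE : IsOriented E)
    (hadj : ∀ x y, (E x y ∨ E y x) ↔ (y = x + 1 ∨ y = x + 2 ∨ x = y + 1 ∨ x = y + 2)) (t : ℕ) :
    {y | E (t + 2) y}.ncard = b2 E t + (b1 E (t + 1) + ((1 - b1 E (t + 2)) + (1 - b2 E (t + 2)))) := by
  classical
  have h : {y | E (t + 2) y} =
      ((({t, t + 1, t + 3, t + 4} : Finset ℕ).filter (fun y => E (t + 2) y) : Finset ℕ) : Set ℕ) := by
    ext y
    simp only [Set.mem_ofPred_eq, Finset.coe_filter, Finset.mem_insert, Finset.mem_singleton]
    constructor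
    · intro hy
      have := (hadj (t + 2) y).1 (Or.inl hy)
      exact ⟨by omega, hy⟩
    · exact fun hy => hy.2
  rw [h, Set.ncard_coe_finset, Finset.card_filter, Finset.sum_insert, Finset.sum_insert,
    Finset.sum_insert, Finset.sum_singleton, ← fwd1 hE hadj (t + 2), ← fwd2 hE hadj (t + 2)]
  · rfl
  · simp only [Finset.mem_singleton]; omega
  · simp only [Finset.mem_insert, Finset.mem_singleton]; omega
  · simp only [Finset.mem_insert, Finset.mem_singleton]; omega

theorem outdeg_one (hE : IsOriented E)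
    (hadj : ∀ x y, (E x y ∨ E y x) ↔ (y = x + 1 ∨ y = x + 2 ∨ x = y + 1 ∨ x = y + 2)) :
    {y | E 1 y}.ncard = b1 E 0 + ((1 - b1 E 1) + (1 - b2 E 1)) := by
  classical
  have h : {y | E 1 y} =
      ((({0, 2, 3} : Finset ℕ).filter (fun y => E 1 y) : Finset ℕ) : Set ℕ) := by
    ext y
    simp only [Set.mem_ofPred_eq, Finset.coe_filter, Finset.mem_insert, Finset.mem_singleton]
    constructor
    · intro hy
      have := (hadj 1 y).1 (Or.inl hy)
      exact ⟨by omega, hy⟩
    · exact fun hy => hy.2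
  rw [h, Set.ncard_coe_finset, Finset.card_filter, Finset.sum_insert, Finset.sum_insert,
    Finset.sum_singleton, ← fwd1 hE hadj 1, ← fwd2 hE hadj 1]
  · rfl
  · simp only [Finset.mem_singleton]; omega
  · simp only [Finset.mem_insert, Finset.mem_singleton]; omega

theorem outdeg_zero (hE : IsOriented E)
    (hadj : ∀ x y, (E x y ∨ E y x) ↔ (y = x + 1 ∨ y = x + 2 ∨ x = y + 1 ∨ x = y + 2)) :
    {y | E 0 y}.ncard = (1 - b1 E 0) + (1 - b2 E 0) := by
  classical
  have h : {y | E 0 y} =
      ((({1, 2} : Finset ℕ).filter (fun y => E 0 y) : Finset ℕ) : Set ℕ) := by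
    ext y
    simp only [Set.mem_ofPred_eq, Finset.coe_filter, Finset.mem_insert, Finset.mem_singleton]
    constructor
    · intro hy
      have := (hadj 0 y).1 (Or.inl hy)
      exact ⟨by omega, hy⟩
    · exact fun hy => hy.2
  rw [h, Set.ncard_coe_finset, Finset.card_filter, Finset.sum_insert,
    Finset.sum_singleton, ← fwd1 hE hadj 0, ← fwd2 hE hadj 0]
  simp only [Finset.mem_singleton]; omega

theorem D₀_b1 (n : ℕ) : b1 D₀ n = 0 := by
  unfold b1 D₀
  rw [if_neg]
  omega

theorem D₀_b2 (n : ℕ) : b2 D₀ n = 1 - n % 2 := by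
  unfold b2 D₀
  split_ifs with h <;> omega

/-- Every cut `{0, …, n + 1}` is crossed backwards by exactly one arc. -/
theorem cut (hE : IsOriented E)
    (hadj : ∀ x y, (E x y ∨ E y x) ↔ (y = x + 1 ∨ y = x + 2 ∨ x = y + 1 ∨ x = y + 2))
    (hdeg : ∀ x, {y | E x y}.ncard = {y | D₀ x y}.ncard) :
    b1 E 0 + b2 E 0 = 1 ∧ ∀ n, b1 E (n + 1) + b2 E (n + 1) + b2 E n = 1 := by
  have h0 : b1 E 0 + b2 E 0 = 1 := by
    have h := hdeg 0
    rw [outdeg_zero hE hadj, outdeg_zero D₀_oriented D₀_adj, D₀_b1, D₀_b2] at h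
    have := b1_le (E := E) 0
    have := b2_le (E := E) 0
    omega
  refine ⟨h0, fun n => ?_⟩
  induction n with
  | zero =>
    have h := hdeg 1
    rw [outdeg_one hE hadj, outdeg_one D₀_oriented D₀_adj, D₀_b1, D₀_b1, D₀_b2] at h
    have := b1_le (E := E) 1
    have := b2_le (E := E) 1
    have := b1_le (E := E) 0
    have := b2_le (E := E) 0
    simp only [Nat.zero_add]
    omega
  | succ n ih =>
    have h := hdeg (n + 2)
    rw [outdeg_ge_two hE hadj, outdeg_ge_two D₀_oriented D₀_adj, D₀_b1, D₀_b1, D₀_b2, D₀_b2] at h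
    have := b1_le (E := E) (n + 1)
    have := b2_le (E := E) (n + 1)
    have := b1_le (E := E) (n + 2)
    have := b2_le (E := E) (n + 2)
    have := b2_le (E := E) n
    show b1 E (n + 2) + b2 E (n + 2) + b2 E (n + 1) = 1
    omega

theorem b1_eq_one {n : ℕ} (h : E (n + 1) n) : b1 E n = 1 := if_pos h

theorem b2_eq_one {n : ℕ} (h : E (n + 2) n) : b2 E n = 1 := if_pos h

theorem strong (hE : IsOriented E)
    (hadj : ∀ x y, (E x y ∨ E y x) ↔ (y = x + 1 ∨ y = x + 2 ∨ x = y + 1 ∨ x = y + 2))
    (hdeg : ∀ x, {y | E x y}.ncard = {y | D₀ x y}.ncard) (x y : ℕ) :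
    Relation.ReflTransGen E x y := by
  classical
  obtain ⟨h0, hcut⟩ := cut hE hadj hdeg
  have f1 : ∀ n, b1 E n = 0 → E n (n + 1) := by
    intro n hn
    have h1 := (hadj n (n + 1)).2 (Or.inl rfl)
    rcases h1 with h1 | h1
    · exact h1
    · rw [b1_eq_one h1] at hn
      omega
  have f2 : ∀ n, b2 E n = 0 → E n (n + 2) := by
    intro n hn
    have h1 := (hadj n (n + 2)).2 (Or.inr (Or.inl rfl))
    rcases h1 with h1 | h1
    · exact h1
    · rw [b2_eq_one h1] at hn
      omega
  have g1 : ∀ n, b1 E n ≠ 0 → E (n + 1) n := by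
    intro n hn
    by_contra h
    exact hn (if_neg h)
  have g2 : ∀ n, b2 E n ≠ 0 → E (n + 2) n := by
    intro n hn
    by_contra h
    exact hn (if_neg h)
  -- `n` is reached from `n + 1`
  have back : ∀ n, Relation.ReflTransGen E (n + 1) n := by
    intro n
    rcases Nat.eq_zero_or_pos n with rfl | hn
    · by_cases h1 : b1 E 0 = 0
      · have h2 : E 2 0 := g2 0 (by omega)
        have h3 := hcut 0
        have h4 : E 1 2 := f1 1 (by simp only [Nat.zero_add] at h3; omega)
        exact Relation.ReflTransGen.head h4 (Relation.ReflTransGen.single h2)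
      · exact Relation.ReflTransGen.single (g1 0 h1)
    · obtain ⟨m, rfl⟩ : ∃ m, n = m + 1 := ⟨n - 1, by omega⟩
      have h1 := hcut m
      have h2 : b1 E (m + 2) + b2 E (m + 2) + b2 E (m + 1) = 1 := hcut (m + 1)
      by_cases c1 : b1 E (m + 1) = 0
      · by_cases c2 : b2 E (m + 1) = 0
        · have c3 : E (m + 2) m := g2 m (by omega)
          have c4 : E m (m + 1) := by
            apply f1
            rcases Nat.eq_zero_or_pos m with rfl | hm
            · omega
            · obtain ⟨l, rfl⟩ : ∃ l, m = l + 1 := ⟨m - 1, by omega⟩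
              have := hcut l
              omega
          exact Relation.ReflTransGen.head c3 (Relation.ReflTransGen.single c4)
        · have c3 : E (m + 3) (m + 1) := g2 (m + 1) c2
          have c4 : E (m + 2) (m + 3) := f1 (m + 2) (by omega)
          exact Relation.ReflTransGen.head c4 (Relation.ReflTransGen.single c3)
      · exact Relation.ReflTransGen.single (g1 (m + 1) c1)
  -- `n + 1` is reached from `n`
  have forth : ∀ n, Relation.ReflTransGen E n (n + 1) := by
    intro n
    by_cases c1 : b1 E n = 0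
    · exact Relation.ReflTransGen.single (f1 n c1)
    · have c2 : b2 E n = 0 := by
        rcases Nat.eq_zero_or_pos n with rfl | hn
        · omega
        · obtain ⟨m, rfl⟩ : ∃ m, n = m + 1 := ⟨n - 1, by omega⟩
          have := hcut m
          omega
      exact Relation.ReflTransGen.head (f2 n c2) (back (n + 1))
  have down : ∀ n, Relation.ReflTransGen E n 0 := by
    intro n
    induction n with
    | zero => exact Relation.ReflTransGen.refl
    | succ n ih => exact (back n).trans ih
  have up : ∀ n, Relation.ReflTransGen E 0 n := by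
    intro n
    induction n with
    | zero => exact Relation.ReflTransGen.refl
    | succ n ih => exact ih.trans (forth n)
  exact (down x).trans (up y)

end example_

/-- There is a countable, locally finite digraph `D` such that after every reversal sequence the
resulting digraph is strong, and hence has an infinite strong component (its only one). -/
theorem result :
    ∃ D : ℕ → ℕ → Prop, IsOriented D ∧ (∀ x, {y | D x y ∨ D y x}.Finite) ∧
      ∀ (θ : Ordinal.{v}) (C E : Ordinal.{v} → ℕ → ℕ → Prop), IsReversalSequence D θ C E →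
        StrongOn (E θ) Set.univ ∧ ∃ S : Set ℕ, IsStrongComponent (E θ) S ∧ S.Infinite := by
  refine ⟨D₀, D₀_oriented, D₀_finite, fun θ C E h => ?_⟩
  obtain ⟨h1, h2, h3⟩ := invariants D₀_oriented D₀_finite h θ le_rfl
  have hs : StrongOn (E θ) Set.univ := by
    intro x _ y _
    have h4 := strong h1 (fun x y => (h2 x y).trans (D₀_adj x y)) h3 x y
    have h5 : E θ ≤ fun a b => a ∈ (Set.univ : Set ℕ) ∧ b ∈ (Set.univ : Set ℕ) ∧ E θ a b :=
      fun a b hab => ⟨trivial, trivial, hab⟩
    exact Relation.ReflTransGen.mono h5 x y h4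
  refine ⟨hs, Set.univ, ⟨⟨0, trivial⟩, hs, fun T hT _ => Set.univ_subset_iff.1 hT⟩,
    Set.infinite_univ⟩

end Pool.Agent.Results.MP_cc637b_co.StrongForever
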